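import Mathlib

/-!
# MP_1d2ce7_al, Q1: 3P-blocking words exist

In the free group of rank `r ≥ 2` every reduced word which contains all reduced words of length two
as subwords is 3P-blocking, and such words exist.
-/

set_option autoImplicit false

namespace Pool.Agent.Results.MP_1d2ce7_al.BlockingWords

open FreeGroup

/-- Partially positive: some generator occurs, and occurs only with positive exponents. -/
def PartiallyPositive {r : ℕ} (w : FreeGroup (Fin r)) : Prop :=
  ∃ a : Fin r, (a, true) ∈ w.toWord ∧ (a, false) ∉ w.toWord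

/-- Potentially partially positive. -/
def Is3P {r : ℕ} (w : FreeGroup (Fin r)) : Prop :=
  ∃ (φ : FreeGroup (Fin r) ≃* FreeGroup (Fin r)) (v : FreeGroup (Fin r)),
    PartiallyPositive v ∧ w = φ v

/-- `u` is 3P-blocking: it is a reduced word and not a subword of any cyclically reduced 3P word. -/
def Blocking {r : ℕ} (u : List (Fin r × Bool)) : Prop :=
  IsReduced u ∧ ∀ w : FreeGroup (Fin r), IsCyclicallyReduced w.toWord → Is3P w →
    ¬ (u <:+: w.toWord)

section words

variable {ι : Type} [DecidableEq ι]

/-- Decomposition of a product of two reduced words. -/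
theorem decomp (U : List (ι × Bool)) : ∀ V : List (ι × Bool), IsReduced U → IsReduced V →
    ∃ U₁ C V₁, U = U₁ ++ C ∧ V = invRev C ++ V₁ ∧ IsReduced (U₁ ++ V₁) := by
  induction U using List.reverseRecOn with
  | nil => intro V _ hV; exact ⟨[], [], V, rfl, rfl, hV⟩
  | append_singleton U z ih =>
    intro V hU hV
    by_cases h : V.head? = some (z.1, !z.2)
    · obtain ⟨V', rfl⟩ : ∃ V', V = (z.1, !z.2) :: V' := by
        cases V with
        | nil => simp at h
        | cons y V' =>
          rw [List.head?_cons, Option.some.injEq] at h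
          exact ⟨V', by rw [h]⟩
      have hU' : IsReduced U := List.IsChain.left_of_append hU
      have hV' : IsReduced V' := by
        have : IsReduced ([(z.1, !z.2)] ++ V') := hV
        exact List.IsChain.right_of_append this
      obtain ⟨U₁, C, V₁, h1, h2, h3⟩ := ih V' hU' hV'
      refine ⟨U₁, C ++ [z], V₁, by rw [h1, List.append_assoc], ?_, h3⟩
      rw [h2, invRev_append]
      simp [invRev]
    · refine ⟨U ++ [z], [], V, by simp, by simp [invRev], ?_⟩
      unfold FreeGroup.IsReduced
      rw [List.isChain_append]
      refine ⟨hU, hV, ?_⟩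
      intro x hx y hy hxy
      rw [List.getLast?_append_of_ne_nil _ (by simp), List.getLast?_singleton,
        Option.mem_some_iff] at hx
      subst hx
      rw [Option.mem_def] at hy
      by_contra hne
      apply h
      rw [hy, Option.some.injEq]
      apply Prod.ext
      · exact hxy.symm
      · have : y.2 = !z.2 := by
          cases hz : z.2 <;> cases hy' : y.2 <;> simp_all
        exact this

theorem toWord_mul_decomp (u v : FreeGroup ι) : ∃ U₁ C V₁, u.toWord = U₁ ++ C ∧
    v.toWord = invRev C ++ V₁ ∧ (u * v).toWord = U₁ ++ V₁ := by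
  obtain ⟨U₁, C, V₁, h1, h2, h3⟩ := decomp u.toWord v.toWord isReduced_toWord isReduced_toWord
  refine ⟨U₁, C, V₁, h1, h2, ?_⟩
  have h4 : u * v = mk (U₁ ++ V₁) := by
    rw [← mk_toWord (x := u), ← mk_toWord (x := v), h1, h2]
    rw [← mul_mk, ← mul_mk, ← mul_mk, ← inv_mk]
    group
  rw [h4, toWord_mk, h3.reduce_eq]

/-- Multiplying by a shorter element does not change the first letter. -/
theorem head_mul_of_lt (u v : FreeGroup ι) (h : v.norm < u.norm) :
    (u * v).toWord.head? = u.toWord.head? := by
  obtain ⟨U₁, C, V₁, h1, h2, h3⟩ := toWord_mul_decomp u v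
  have h4 : U₁ ≠ [] := by
    rintro rfl
    have e1 : u.norm = C.length := by rw [FreeGroup.norm, h1]; simp
    have e2 : v.norm = C.length + V₁.length := by rw [FreeGroup.norm, h2]; simp
    omega
  obtain ⟨x, U', rfl⟩ := List.exists_cons_of_ne_nil h4
  rw [h3, h1]
  simp

/-- Multiplying an element starting with `a` by an element without `a⁻¹`. -/
theorem head_mul_pos (a : ι) (u v : FreeGroup ι) (hu : u.toWord.head? = some (a, true))
    (hv : (a, false) ∉ v.toWord) : (u * v).toWord.head? = some (a, true) := by
  obtain ⟨U₁, C, V₁, h1, h2, h3⟩ := toWord_mul_decomp u v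
  cases U₁ with
  | nil =>
    exfalso
    rw [List.nil_append] at h1
    rw [h1] at hu
    cases C with
    | nil => simp at hu
    | cons c C =>
      rw [List.head?_cons, Option.some.injEq] at hu
      apply hv
      rw [h2, hu]
      simp [invRev]
  | cons x U' =>
    rw [h3]
    rw [h1] at hu
    simpa using hu

end words

section tree

variable {ι : Type} [DecidableEq ι] [Finite ι]

theorem ball_finite (n : ℕ) : {w : FreeGroup ι | w.norm ≤ n}.Finite := by
  have h : {w : FreeGroup ι | w.norm ≤ n} ⊆
      (fun l : List (ι × Bool) => FreeGroup.mk l) '' {l | l.length ≤ n} := by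
    intro w hw
    exact ⟨w.toWord, hw, mk_toWord⟩
  exact ((List.finite_length_le (ι × Bool) n).image _).subset h

/-- A colouring of the free group is eventually equal to `c` in the cylinder of `p`. -/
def Mono (A : FreeGroup ι → Prop) (p : List (ι × Bool)) (c : Prop) : Prop :=
  ∃ N : ℕ, ∀ s : List (ι × Bool), IsReduced (p ++ s) → N ≤ s.length → (A (mk (p ++ s)) ↔ c)

/-- A colouring which changes only finitely often, and takes both values infinitely often, has a
vertex with two directions of opposite colours. -/
theorem exists_vertex (A : FreeGroup ι → Prop) (R : ℕ)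
    (hR : ∀ (g : FreeGroup ι) (z : ι × Bool), R ≤ g.norm → (A (g * mk [z]) ↔ A g))
    (h1 : ∀ N : ℕ, ∃ g : FreeGroup ι, N ≤ g.norm ∧ A g)
    (h0 : ∀ N : ℕ, ∃ g : FreeGroup ι, N ≤ g.norm ∧ ¬ A g) :
    ∃ (p : List (ι × Bool)) (x y : ι × Bool), IsReduced (p ++ [x]) ∧ IsReduced (p ++ [y]) ∧
      Mono A (p ++ [x]) True ∧ Mono A (p ++ [y]) False := by
  classical
  have := Fintype.ofFinite (ι × Bool)
  by_contra hcon
  push Not at hcon
  -- deep cylinders are monochromatic
  have hdeep : ∀ p : List (ι × Bool), IsReduced p → R ≤ p.length → Mono A p (A (mk p)) := by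
    intro p hp hpR
    refine ⟨0, ?_⟩
    intro s
    induction s using List.reverseRecOn with
    | nil => intro _ _; simp
    | append_singleton s z ih =>
      intro hs _
      rw [← List.append_assoc] at hs ⊢
      have hs' : IsReduced (p ++ s) := List.IsChain.left_of_append hs
      rw [← ih hs' (Nat.zero_le _), ← mul_mk]
      apply hR
      rw [FreeGroup.norm, toWord_mk, hs'.reduce_eq, List.length_append]
      omega
  have key : ∀ (n : ℕ) (p : List (ι × Bool)), IsReduced p → R ≤ p.length + n →
      Mono A p True ∨ Mono A p False := by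
    intro n
    induction n with
    | zero =>
      intro p hp hpR
      have h := hdeep p hp (by simpa using hpR)
      by_cases hA : A (mk p)
      · left; simpa [hA] using h
      · right; simpa [hA] using h
    | succ n ih =>
      intro p hp hpR
      have hz : ∀ z : ι × Bool, IsReduced (p ++ [z]) →
          Mono A (p ++ [z]) True ∨ Mono A (p ++ [z]) False := by
        intro z hz
        exact ih _ hz (by rw [List.length_append, List.length_singleton]; omega)
      -- combine the directions
      have combine : ∀ c : Prop, (∀ z : ι × Bool, IsReduced (p ++ [z]) → Mono A (p ++ [z]) c) →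
          Mono A p c := by
        intro c hc
        choose! N hN using hc
        refine ⟨(Finset.univ.sup N) + 1, fun s hs hlen => ?_⟩
        cases s with
        | nil => simp at hlen
        | cons z s =>
          have hz : IsReduced (p ++ [z]) := by
            have : p ++ z :: s = (p ++ [z]) ++ s := by simp
            rw [this] at hs
            exact List.IsChain.left_of_append hs
          have e : p ++ z :: s = (p ++ [z]) ++ s := by simp
          rw [e] at hs ⊢
          apply hN z hz s hs
          have h3 : N z ≤ Finset.univ.sup N := Finset.le_sup (Finset.mem_univ z)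
          rw [List.length_cons] at hlen
          omega
      by_cases hx : ∃ x, IsReduced (p ++ [x]) ∧ Mono A (p ++ [x]) True
      · left
        obtain ⟨x, hx1, hx2⟩ := hx
        apply combine
        intro y hy
        rcases hz y hy with h | h
        · exact h
        · exact absurd h (hcon p x y hx1 hy hx2)
      · right
        push Not at hx
        apply combine
        intro y hy
        rcases hz y hy with h | h
        · exact absurd h (hx y hy)
        · exact h
  rcases key R [] IsReduced.nil (by simp) with ⟨N, hN⟩ | ⟨N, hN⟩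
  · obtain ⟨g, hg1, hg2⟩ := h0 N
    have := hN g.toWord (by simpa using isReduced_toWord) hg1
    rw [List.nil_append, mk_toWord] at this
    exact hg2 (this.mpr trivial)
  · obtain ⟨g, hg1, hg2⟩ := h1 N
    have := hN g.toWord (by simpa using isReduced_toWord) hg1
    rw [List.nil_append, mk_toWord] at this
    exact this.mp hg2

end tree

section main

variable {r : ℕ}

/-- A reduced word containing all reduced words of length two is blocking. -/
theorem blocking_of_all (u : List (Fin r × Bool)) (hu : IsReduced u)
    (hall : ∀ x y : Fin r × Bool, IsReduced [x, y] → [x, y] <:+: u) : Blocking u := by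
  classical
  refine ⟨hu, ?_⟩
  rintro w hw ⟨φ, v, ⟨a, hav, hav'⟩, rfl⟩ hsub
  -- the colouring
  set A : FreeGroup (Fin r) → Prop := fun g => (φ.symm g).toWord.head? = some (a, true) with hA
  have hAw : ∀ (m : ℕ) (g : FreeGroup (Fin r)), A g → A (g * (φ v) ^ m) := by
    intro m
    induction m with
    | zero => intro g hg; simpa using hg
    | succ m ih =>
      intro g hg
      rw [pow_succ, ← mul_assoc]
      have h1 := ih g hg
      show (φ.symm (g * φ v ^ m * φ v)).toWord.head? = some (a, true)
      rw [_root_.map_mul φ.symm, MulEquiv.symm_apply_apply]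
      exact head_mul_pos a _ v h1 hav'
  -- finiteness of the coboundary
  obtain ⟨C, hC⟩ : ∃ C : ℕ, ∀ z : Fin r × Bool, (φ.symm (mk [z])).norm ≤ C := by
    refine ⟨Finset.univ.sup (fun z : Fin r × Bool => (φ.symm (mk [z])).norm), fun z => ?_⟩
    exact Finset.le_sup (f := fun z : Fin r × Bool => (φ.symm (mk [z])).norm) (Finset.mem_univ z)
  obtain ⟨R, hR⟩ : ∃ R : ℕ, ∀ g : FreeGroup (Fin r), (φ.symm g).norm ≤ C → g.norm < R := by
    have hfin : (φ '' {g : FreeGroup (Fin r) | g.norm ≤ C}).Finite := (ball_finite C).image _
    obtain ⟨M, hM⟩ := (hfin.image FreeGroup.norm).bddAbove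
    refine ⟨M + 1, fun g hg => ?_⟩
    have : g.norm ∈ FreeGroup.norm '' (φ '' {g : FreeGroup (Fin r) | g.norm ≤ C}) :=
      ⟨g, ⟨φ.symm g, hg, by simp⟩, rfl⟩
    exact Nat.lt_succ_of_le (hM this)
  have hcob : ∀ (g : FreeGroup (Fin r)) (z : Fin r × Bool), R ≤ g.norm →
      (A (g * mk [z]) ↔ A g) := by
    intro g z hg
    show (φ.symm (g * mk [z])).toWord.head? = _ ↔ (φ.symm g).toWord.head? = _
    rw [_root_.map_mul φ.symm, head_mul_of_lt]
    by_contra hcon
    push Not at hcon
    exact absurd (hR g (hcon.trans (hC z))) (not_lt.mpr hg)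
  -- both colours occur arbitrarily far away
  have hfar : ∀ (h : FreeGroup (Fin r)) (hinj : Function.Injective (fun m : ℕ => h ^ m)) (N : ℕ),
      ∃ m : ℕ, 0 < m ∧ N ≤ (φ (h ^ m)).norm := by
    intro h hinj N
    by_contra hcon
    push Not at hcon
    have hinj' : Function.Injective (fun m : ℕ => φ (h ^ (m + 1))) := by
      intro m n hmn
      have h1 := hinj (φ.injective hmn)
      omega
    exact Set.infinite_of_injective_forall_mem hinj'
      (s := {g : FreeGroup (Fin r) | g.norm ≤ N}) (fun m => (hcon (m + 1) (by omega)).le)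
      (ball_finite N)
  have hpow : ∀ m : ℕ, ((FreeGroup.of a) ^ m).toWord = List.replicate m (a, true) :=
    fun m => toWord_of_pow a m
  have hinj1 : Function.Injective (fun m : ℕ => (FreeGroup.of a) ^ m) := by
    intro m n hmn
    have := congrArg (fun g => g.toWord.length) hmn
    simpa [hpow] using this
  have hinj0 : Function.Injective (fun m : ℕ => ((FreeGroup.of a)⁻¹) ^ m) := by
    intro m n hmn
    apply hinj1
    simp only [inv_pow] at hmn
    exact inv_injective hmn
  have h1 : ∀ N : ℕ, ∃ g : FreeGroup (Fin r), N ≤ g.norm ∧ A g := by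
    intro N
    obtain ⟨m, hm, hN⟩ := hfar _ hinj1 N
    refine ⟨_, hN, ?_⟩
    show (φ.symm (φ (FreeGroup.of a ^ m))).toWord.head? = some (a, true)
    rw [MulEquiv.symm_apply_apply, hpow]
    obtain ⟨m', rfl⟩ := Nat.exists_eq_add_of_le' hm
    simp [List.replicate_succ]
  have h0 : ∀ N : ℕ, ∃ g : FreeGroup (Fin r), N ≤ g.norm ∧ ¬ A g := by
    intro N
    obtain ⟨m, hm, hN⟩ := hfar _ hinj0 N
    refine ⟨_, hN, ?_⟩
    show ¬ (φ.symm (φ ((FreeGroup.of a)⁻¹ ^ m))).toWord.head? = some (a, true)
    rw [MulEquiv.symm_apply_apply, inv_pow, toWord_inv, hpow]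
    obtain ⟨m', rfl⟩ := Nat.exists_eq_add_of_le' hm
    simp [invRev, List.replicate_succ']
  obtain ⟨p, x, y, hpx, hpy, ⟨N1, hN1⟩, ⟨N0, hN0⟩⟩ := exists_vertex A R hcob h1 h0
  -- `x ≠ y`
  have hxy : x ≠ y := by
    rintro rfl
    -- extend `p x` to a long reduced word
    have hext : ∀ n : ℕ, IsReduced ((p ++ [x]) ++ List.replicate n x) := by
      intro n
      have h2 : IsReduced ([x] ++ List.replicate n x) := by
        rw [List.singleton_append, ← List.replicate_succ]
        unfold FreeGroup.IsReduced
        exact List.isChain_replicate_of_rel _ (fun _ => rfl)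
      have h3 : IsReduced (p ++ [x] ++ List.replicate n x) := hpx.append_overlap h2 (by simp)
      exact h3
    have e1 := hN1 (List.replicate (N1 + N0) x) (hext _) (by simp)
    have e0 := hN0 (List.replicate (N1 + N0) x) (hext _) (by simp)
    exact e0.mp (e1.mpr trivial)
  -- the subword `x⁻¹ y`
  have hxinv : IsReduced [(x.1, !x.2), y] := by
    rw [isReduced_cons_cons]
    refine ⟨fun h => ?_, IsReduced.singleton⟩
    by_contra hne
    apply hxy
    apply Prod.ext
    · exact h
    · have hne' : (!x.2) ≠ y.2 := hne
      cases hx2 : x.2 <;> cases hy2 : y.2 <;> simp_all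
  have hsub2 : [(x.1, !x.2), y] <:+: (φ v).toWord := (hall _ _ hxinv).trans hsub
  obtain ⟨w1, w2, hww⟩ := hsub2
  set W := (φ v).toWord with hW
  -- powers of `W` are reduced
  have hWpow : ∀ n : ℕ, IsReduced (List.replicate n W).flatten :=
    fun n => (hw.flatten_replicate n).isReduced
  obtain ⟨M, hM⟩ : ∃ M, M = N1 + N0 := ⟨_, rfl⟩
  set T := (List.replicate M W).flatten with hT
  have hTlen : M ≤ T.length := by
    have : 1 ≤ W.length := by rw [← hww]; simp; omega
    rw [hT]
    simp only [List.length_flatten, List.map_replicate, List.sum_replicate, smul_eq_mul]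
    exact Nat.le_mul_of_pos_right _ this
  have hTmk : mk T = (φ v) ^ M := by
    rw [hT, ← mk_toWord (x := φ v), ← hW]
    have hgen : ∀ n : ℕ, mk (List.replicate n W).flatten = mk W ^ n := by
      intro n
      induction n with
      | zero => simp [one_eq_mk]
      | succ n ih => rw [List.replicate_succ, List.flatten_cons, ← mul_mk, ih, pow_succ']
    exact hgen M
  have hred1 : IsReduced (T ++ w1 ++ [(x.1, !x.2)]) := by
    have h2 := hWpow (M + 1)
    rw [List.replicate_succ', List.flatten_append, ← hT] at h2
    simp only [List.flatten_singleton] at h2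
    rw [← hww] at h2
    have e : T ++ (w1 ++ [(x.1, !x.2), y] ++ w2) = (T ++ w1 ++ [(x.1, !x.2)]) ++ (y :: w2) := by
      simp
    rw [e] at h2
    exact List.IsChain.left_of_append h2
  have hred2 : IsReduced ([y] ++ (w2 ++ T)) := by
    have h2 := hWpow (M + 1)
    rw [List.replicate_succ, List.flatten_cons, ← hT, ← hww] at h2
    have e : (w1 ++ [(x.1, !x.2), y] ++ w2) ++ T = (w1 ++ [(x.1, !x.2)]) ++ ([y] ++ (w2 ++ T)) := by
      simp
    rw [e] at h2
    exact List.IsChain.right_of_append h2
  -- the element beyond `x`
  have hinvred : IsReduced ([x] ++ invRev (T ++ w1)) := by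
    have h2 : IsReduced (invRev (T ++ w1 ++ [(x.1, !x.2)])) := by
      rw [isReduced_iff_reduce_eq, reduce_invRev, hred1.reduce_eq]
    rw [invRev_append] at h2
    simpa [invRev] using h2
  have hk1 : IsReduced ((p ++ [x]) ++ invRev (T ++ w1)) := by
    have := hpx.append_overlap hinvred (by simp)
    exact this
  have hk0 : IsReduced ((p ++ [y]) ++ (w2 ++ T)) := by
    have := hpy.append_overlap hred2 (by simp)
    exact this
  have c1 : A (mk ((p ++ [x]) ++ invRev (T ++ w1))) := by
    refine (hN1 _ hk1 ?_).mpr trivial
    rw [invRev_length, List.length_append]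
    omega
  have c0 : ¬ A (mk ((p ++ [y]) ++ (w2 ++ T))) := by
    refine (hN0 _ hk0 ?_).mp
    rw [List.length_append]
    omega
  apply c0
  have hrel : mk ((p ++ [y]) ++ (w2 ++ T)) =
      mk ((p ++ [x]) ++ invRev (T ++ w1)) * (φ v) ^ (M + 1 + M) := by
    have hw3 : φ v = mk w1 * mk [(x.1, !x.2)] * mk [y] * mk w2 := by
      rw [mul_mk, mul_mk, mul_mk]
      conv_lhs => rw [← mk_toWord (x := φ v), ← hW, ← hww]
      simp
    have hxi : mk [(x.1, !x.2)] = (mk [x])⁻¹ := by rw [inv_mk]; simp [invRev]
    simp only [← mul_mk]
    rw [← inv_mk, ← mul_mk, hTmk, pow_add, pow_add, pow_one]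
    have e2 : (mk w1)⁻¹ * (φ v) = mk [(x.1, !x.2)] * mk [y] * mk w2 := by
      rw [hw3]; group
    calc mk p * mk [y] * (mk w2 * φ v ^ M)
        = mk p * mk [x] * (mk [(x.1, !x.2)] * mk [y] * mk w2) * φ v ^ M := by rw [hxi]; group
      _ = mk p * mk [x] * ((mk w1)⁻¹ * φ v) * φ v ^ M := by rw [e2]
      _ = mk p * mk [x] * (φ v ^ M * mk w1)⁻¹ * (φ v ^ M * φ v * φ v ^ M) := by group
  rw [hrel]
  exact hAw _ _ c1

/-- There is a reduced word containing all words of a given finite list of nonempty reduced words. -/
theorem exists_common (hr : 2 ≤ r) (L : List (List (Fin r × Bool)))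
    (hL : ∀ t ∈ L, IsReduced t) : ∃ u : List (Fin r × Bool), IsReduced u ∧ ∀ t ∈ L, t <:+: u := by
  classical
  induction L with
  | nil => exact ⟨[], IsReduced.nil, by simp⟩
  | cons t L ih =>
    obtain ⟨u, hu, hu'⟩ := ih (fun t ht => hL t (List.mem_cons_of_mem _ ht))
    have ht := hL t List.mem_cons_self
    -- a connecting letter
    have hz : ∃ z : Fin r × Bool, (∀ x ∈ u.getLast?, x.1 = z.1 → x.2 = z.2) ∧
        (∀ y ∈ t.head?, z.1 = y.1 → z.2 = y.2) := by
      set bad : Finset (Fin r × Bool) :=
        (u.getLast?.map (fun x => (x.1, !x.2))).toFinset ∪ (t.head?.map (fun x => (x.1, !x.2))).toFinset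
        with hbad
      have hcard : bad.card < (Finset.univ : Finset (Fin r × Bool)).card := by
        have h1 : (u.getLast?.map (fun x => (x.1, !x.2))).toFinset.card ≤ 1 := by
          cases u.getLast? <;> simp
        have h2 : (t.head?.map (fun x => (x.1, !x.2))).toFinset.card ≤ 1 := by
          cases t.head? <;> simp
        have h3 := Finset.card_union_le (u.getLast?.map (fun x => (x.1, !x.2))).toFinset
          (t.head?.map (fun x => (x.1, !x.2))).toFinset
        rw [Finset.card_univ, Fintype.card_prod, Fintype.card_fin, Fintype.card_bool]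
        rw [← hbad] at h3
        omega
      obtain ⟨z, -, hz⟩ := Finset.exists_mem_notMem_of_card_lt_card hcard
      rw [hbad, Finset.mem_union, not_or] at hz
      refine ⟨z, fun x hx hxz => ?_, fun y hy hzy => ?_⟩
      · by_contra hne
        apply hz.1
        rw [Option.mem_def] at hx
        rw [hx]
        simp only [Option.map_some, Option.toFinset_some, Finset.mem_singleton]
        apply Prod.ext
        · exact hxz.symm
        · show z.2 = !x.2
          cases hz2 : z.2 <;> cases hx2 : x.2 <;> simp_all
      · by_contra hne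
        apply hz.2
        rw [Option.mem_def] at hy
        rw [hy]
        simp only [Option.map_some, Option.toFinset_some, Finset.mem_singleton]
        apply Prod.ext
        · exact hzy
        · show z.2 = !y.2
          cases hz2 : z.2 <;> cases hy2 : y.2 <;> simp_all
    obtain ⟨z, hz1, hz2⟩ := hz
    have hzt : IsReduced (z :: t) := by
      unfold FreeGroup.IsReduced
      rw [List.isChain_cons]
      exact ⟨hz2, ht⟩
    refine ⟨u ++ (z :: t), ?_, ?_⟩
    · unfold FreeGroup.IsReduced
      rw [List.isChain_append]
      refine ⟨hu, hzt, fun x hx y hy => ?_⟩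
      rw [List.head?_cons, Option.mem_some_iff] at hy
      subst hy
      exact hz1 x hx
    · intro s hs
      rw [List.mem_cons] at hs
      rcases hs with rfl | hs
      · exact ⟨u ++ [z], [], by simp⟩
      · obtain ⟨l1, l2, h⟩ := hu' s hs
        exact ⟨l1, l2 ++ (z :: t), by rw [← h]; simp⟩

/-- For every `r ≥ 2`: a reduced word of `F_r` which contains every reduced word of length two is
3P-blocking; in particular 3P-blocking words exist in `F_r`. -/
theorem result (r : ℕ) (hr : 2 ≤ r) :
    (∀ u : List (Fin r × Bool), IsReduced u →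
      (∀ x y : Fin r × Bool, IsReduced [x, y] → [x, y] <:+: u) → Blocking u) ∧
    ∃ u : List (Fin r × Bool), Blocking u := by
  classical
  refine ⟨blocking_of_all, ?_⟩
  set L : List (List (Fin r × Bool)) :=
    (((Finset.univ : Finset ((Fin r × Bool) × (Fin r × Bool))).toList.map
      (fun q => [q.1, q.2])).filter (fun t => IsReduced t)) with hL
  obtain ⟨u, hu, hu'⟩ := exists_common hr L (fun t ht => by
    rw [hL, List.mem_filter] at ht
    simpa using ht.2)
  refine ⟨u, blocking_of_all u hu (fun x y hxy => hu' _ ?_)⟩
  rw [hL, List.mem_filter, List.mem_map]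
  exact ⟨⟨(x, y), by simp, rfl⟩, decide_eq_true hxy⟩

end main

end Pool.Agent.Results.MP_1d2ce7_al.BlockingWords
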